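import Pool.Agent.W5h30.SM.PairLaw
import Pool.Agent.W5h30.SM.Curve
import Pool.Agent.W5h30.MU.Mult

/-!
# The joint law of several windows of digits of a function of a random algebraic number (helper30)
-/

set_option autoImplicit false
set_option linter.unusedVariables false

namespace Pool.Agent.W5h30.MW

open MeasureTheory Set Filter
open Pool.Agent.Y933.KD (e)
open Pool.Agent.Y933.KG Pool.Agent.W5h30.LL Pool.Agent.W5h30.SM
open Pool.Agent.W5h30.MU (sep_sum)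

variable {n : ℕ} {f f1 f2 : ℝ → ℝ} {a b B κ : ℝ}

/-- the scaled function -/
def um (m : Fin n → ℕ) (f : ℝ → ℝ) : Fin n → ℝ → ℝ := fun j t => m j * f t

/-- the cells of the scaled function -/
noncomputable def cellm (m K : Fin n → ℕ) (f : ℝ → ℝ) (t : ℝ) : Fin n → ℕ :=
  fun j => cell (K j) (um m f j t)

/-- the event -/
def PVm (a b : ℝ) (m K : Fin n → ℕ) (f : ℝ → ℝ) (E : Finset (Fin n → ℕ)) : Set ℝ :=
  {t | t ∈ Icc a b ∧ cellm m K f t ∈ E}

lemma cellm_ex (hab : a ≤ b) (m K : Fin n → ℕ) {t : ℝ} (ht : t ∈ Icc a b) :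
    cellm m K (ex hab f) t = cellm m K f t := by
  funext j
  unfold cellm um
  rw [ex_eq hab ht]

lemma um_meas (m : Fin n → ℕ) (hf : Continuous f) (j : Fin n) : Measurable (um m f j) := by
  unfold um
  exact (continuous_const.mul hf).measurable

lemma cellm_meas (m K : Fin n → ℕ) (hf : Continuous f) : Measurable (cellm m K f) := by
  refine measurable_pi_lambda _ fun j => ?_
  exact (cell_meas (K j)).comp (um_meas m hf j)

lemma PVm_meas (hab : a ≤ b) (m K : Fin n → ℕ) (hf : ContinuousOn f (Icc a b)) (E : Finset (Fin n → ℕ)) :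
    MeasurableSet (PVm a b m K f E) := by
  have h1 : PVm a b m K f E = Icc a b ∩ (cellm m K (ex hab f)) ⁻¹' (E : Set (Fin n → ℕ)) := by
    ext t
    constructor
    · rintro ⟨ht, h⟩
      refine ⟨ht, ?_⟩
      rw [mem_preimage, cellm_ex hab m K ht]
      exact h
    · rintro ⟨ht, h⟩
      refine ⟨ht, ?_⟩
      rw [mem_preimage, cellm_ex hab m K ht] at h
      exact h
  rw [h1]
  exact measurableSet_Icc.inter (cellm_meas m K (ex_cont hab hf) E.finite_toSet.measurableSet)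

/-- few boundary points -/
lemma PVm_off (hf : FO f a b) : ∃ C : ℝ, 0 ≤ C ∧ ∀ m K : Fin n → ℕ, (∀ j, 1 ≤ m j) → (∀ j, 1 ≤ K j) →
    ∃ Q : Finset ℝ, (Q.card : ℝ) ≤ C * (1 + ∑ j, (m j : ℝ) * K j) ∧
    (∀ x y : ℝ, x < y → (∀ z ∈ Q, z ∉ Icc x y) → (x ∈ Icc a b ↔ y ∈ Icc a b) ∧
      (x ∈ Icc a b → cellm m K f x = cellm m K f y)) := by
  classical
  obtain ⟨C, hC, hf⟩ := hf
  refine ⟨C, hC, fun m K hm hK => ?_⟩
  obtain ⟨Q0, hQ0, hQ0'⟩ := hf 1 le_rfl
  have h2 := fun j => hf (m j * K j) (Nat.mul_pos (hm j) (hK j))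
  choose Q hQ hQ2 using h2
  refine ⟨Q0 ∪ Finset.univ.biUnion Q, ?_, fun x y hxy hno => ?_⟩
  · have h3 : ((Finset.univ.biUnion Q).card : ℝ) ≤ ∑ j, ((Q j).card : ℝ) := by
      exact_mod_cast Finset.card_biUnion_le
    have h4 : ((Q0 ∪ Finset.univ.biUnion Q).card : ℝ) ≤ Q0.card + (Finset.univ.biUnion Q).card := by
      exact_mod_cast Finset.card_union_le _ _
    have h5 : ∑ j, ((Q j).card : ℝ) ≤ C * ∑ j, (m j : ℝ) * K j := by
      rw [Finset.mul_sum]
      refine Finset.sum_le_sum fun j _ => ?_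
      have := hQ j
      push_cast at this
      exact this
    rw [mul_add]
    push_cast at hQ0
    linarith
  · have h0 := hQ0' x y hxy fun z hz => hno z (Finset.mem_union_left _ hz)
    refine ⟨h0.1, fun hx => ?_⟩
    funext j
    have h3 := hQ2 j x y hxy fun z hz => hno z (Finset.mem_union_right _ (Finset.mem_biUnion.2 ⟨j, Finset.mem_univ _, hz⟩))
    show cell (K j) ((m j : ℝ) * f x) = cell (K j) ((m j : ℝ) * f y)
    rw [cell_floor _ _ (hK j), cell_floor _ _ (hK j), h3.2 hx]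

lemma PVm_off' {m K : Fin n → ℕ} {Q : Finset ℝ} (h : ∀ x y : ℝ, x < y → (∀ z ∈ Q, z ∉ Icc x y) →
    (x ∈ Icc a b ↔ y ∈ Icc a b) ∧ (x ∈ Icc a b → cellm m K f x = cellm m K f y))
    (E : Finset (Fin n → ℕ)) : Off Q (PVm a b m K f E) := by
  intro x y hxy hno
  obtain ⟨h1, h2⟩ := h x y hxy hno
  constructor
  · rintro ⟨hx, hE⟩
    exact ⟨h1.1 hx, by rw [← h2 hx]; exact hE⟩
  · rintro ⟨hy, hE⟩
    have hx := h1.2 hy
    exact ⟨hx, by rw [h2 hx]; exact hE⟩

/-- the assumptions on the function -/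
structure Reg (f f1 f2 : ℝ → ℝ) (a b B κ : ℝ) : Prop where
  hab : a < b
  hf1 : ∀ x ∈ Icc a b, HasDerivAt f (f1 x) x
  hf2 : ∀ x ∈ Icc a b, HasDerivAt f1 (f2 x) x
  cf2 : ContinuousOn f2 (Icc a b)
  bf2 : ∀ x ∈ Icc a b, |f2 x| ≤ B
  hκ : 0 < κ
  hf0 : ∀ x ∈ Icc a b, κ ≤ |f1 x|

lemma Reg.B0 (h : Reg f f1 f2 a b B κ) : 0 ≤ B :=
  (abs_nonneg _).trans (h.bf2 a ⟨le_rfl, h.hab.le⟩)

/-- the oscillating integral -/
lemma Reg.osc (h : Reg f f1 f2 a b B κ) {α β : ℝ} (haα : a ≤ α) (hαβ : α ≤ β) (hβb : β ≤ b) {u : ℝ}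
    (hu : u ≠ 0) : ‖∫ x in α..β, e (u * f x)‖ ≤ (1 / κ + B * (b - a) / κ ^ 2) / |u| := by
  have hκ := h.hκ
  have hB := h.B0
  have hu0 : 0 < |u| := abs_pos.2 hu
  have hpi := Real.pi_pos
  have hsub : Icc α β ⊆ Icc a b := Icc_subset_Icc haα hβb
  have h1 := osc1 (α := α) (β := β) (m0 := 2 * Real.pi * |u| * κ) (M0 := 2 * Real.pi * |u| * B) hαβ (by positivity)
    (fun x => 2 * Real.pi * (u * f x)) (fun x => 2 * Real.pi * (u * f1 x)) (fun x => 2 * Real.pi * (u * f2 x))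
    (fun x hx => ((h.hf1 x (hsub hx)).const_mul u).const_mul _)
    (fun x hx => ((h.hf2 x (hsub hx)).const_mul u).const_mul _)
    (continuousOn_const.mul (continuousOn_const.mul (h.cf2.mono hsub)))
    (fun x hx => by
      rw [abs_mul (2 * Real.pi), abs_mul u, abs_of_pos (by positivity : (0 : ℝ) < 2 * Real.pi)]
      have := h.hf0 x (hsub hx)
      calc 2 * Real.pi * |u| * κ = 2 * Real.pi * (|u| * κ) := by ring
        _ ≤ 2 * Real.pi * (|u| * |f1 x|) := by gcongr)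
    (fun x hx => by
      rw [abs_mul (2 * Real.pi), abs_mul u, abs_of_pos (by positivity : (0 : ℝ) < 2 * Real.pi)]
      have := h.bf2 x (hsub hx)
      calc 2 * Real.pi * (|u| * |f2 x|) ≤ 2 * Real.pi * (|u| * B) := by gcongr
        _ = _ := by ring)
  have h2 : ∫ x in α..β, e (u * f x) = ∫ x in α..β, Complex.exp (Complex.I * ((2 * Real.pi * (u * f x) : ℝ) : ℂ)) := by
    congr 1
    funext x
    unfold e
    congr 1
    push_cast
    ring
  rw [h2]
  refine h1.trans ?_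
  rw [le_div_iff₀ hu0]
  have hβα : β - α ≤ b - a := by linarith
  have hβα0 : 0 ≤ β - α := by linarith
  have e1 : (2 / (2 * Real.pi * |u| * κ) + 2 * Real.pi * |u| * B * (β - α) / (2 * Real.pi * |u| * κ) ^ 2) * |u| =
      (1 / Real.pi) * (1 / κ) + (1 / (2 * Real.pi)) * (B * (β - α) / κ ^ 2) := by
    field_simp
  rw [e1]
  have hpi1 : 1 / Real.pi ≤ 1 := by
    rw [div_le_one hpi]
    linarith [Real.pi_gt_three]
  have hpi2 : 1 / (2 * Real.pi) ≤ 1 := by
    rw [div_le_one (by positivity)]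
    linarith [Real.pi_gt_three]
  have e2 : (1 / Real.pi) * (1 / κ) ≤ 1 * (1 / κ) := mul_le_mul_of_nonneg_right hpi1 (by positivity)
  have e3 : (1 / (2 * Real.pi)) * (B * (β - α) / κ ^ 2) ≤ 1 * (B * (b - a) / κ ^ 2) := by
    refine mul_le_mul hpi2 ?_ (by positivity) zero_le_one
    gcongr
  linarith

/-- the joint law on short intervals -/
theorem Reg.interval_law (h : Reg f f1 f2 a b B κ) {α β : ℝ} (haα : a ≤ α) (hαβ : α < β) (hβb : β ≤ b)
    (m K : Fin n → ℕ) (hK : ∀ j, 0 < K j) {J : ℕ} (hJ : 0 < J) (E : Finset (Fin n → ℕ))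
    (hE : ∀ w ∈ E, ∀ j, w j < K j) {Δ : ℝ} (hΔ : 0 < Δ)
    (hsp : ∀ k : Fin n → ℤ, k ≠ 0 → (∀ j, |k j| < 4 * (K j * (J : ℤ) ^ 2)) → Δ ≤ |∑ j, (k j : ℝ) * m j|) :
    |volume.real (PVm a b m K f E ∩ Icc α β) - (E.card : ℝ) / (∏ j, (K j : ℝ)) * (β - α)| ≤
      (n * (5 / J) + (4 * n + 1) * ((1 / κ + B * (b - a) / κ ^ 2) / (β - α) * (4 / Δ))) * (β - α) := by
  classical
  have hab := h.hab
  have hκ := h.hκ
  have hB := h.B0
  have hfc : ContinuousOn f (Icc a b) := fun x hx => (h.hf1 x hx).continuousAt.continuousWithinAt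
  have hsub : Icc α β ⊆ Icc a b := Icc_subset_Icc haα hβb
  have hℓ : 0 < β - α := by linarith
  have hba : 0 < b - a := by linarith
  obtain ⟨C, hC⟩ : ∃ C : ℝ, C = 1 / κ + B * (b - a) / κ ^ 2 := ⟨_, rfl⟩
  have hC0 : 0 < C := by rw [hC]; positivity
  rw [← hC]
  set fe := ex hab.le f with hfe
  have hfec : Continuous fe := ex_cont hab.le hfc
  have hvol : volume (Icc α β) = ENNReal.ofReal (β - α) := Real.volume_Icc
  set μ : Measure ℝ := (volume (Icc α β))⁻¹ • volume.restrict (Icc α β) with hμ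
  have hμp : IsProbabilityMeasure μ := by
    constructor
    rw [hμ, Measure.smul_apply, Measure.restrict_apply_univ, hvol, smul_eq_mul]
    exact ENNReal.inv_mul_cancel (by simp [hαβ]) ENNReal.ofReal_ne_top
  have hcoef : ((volume (Icc α β))⁻¹).toReal = (β - α)⁻¹ := by
    rw [ENNReal.toReal_inv, hvol, ENNReal.toReal_ofReal hℓ.le]
  have hsm := smooth μ K hK hJ (um m fe) (um_meas m hfec) E hE
  have hleft : ∫ ω, (if (fun j => cell (K j) (um m fe j ω)) ∈ E then (1 : ℝ) else 0) ∂μ =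
      (β - α)⁻¹ * volume.real (PVm a b m K f E ∩ Icc α β) := by
    rw [hμ, integral_smul_measure, hcoef, smul_eq_mul]
    congr 1
    have hms : MeasurableSet {t | cellm m K fe t ∈ E} :=
      cellm_meas m K hfec E.finite_toSet.measurableSet
    have h1 : (fun ω => if (fun j => cell (K j) (um m fe j ω)) ∈ E then (1 : ℝ) else 0) =
        {t | cellm m K fe t ∈ E}.indicator 1 := by
      funext t
      rw [indicator_apply]
      rfl
    rw [h1, integral_indicator_one hms, measureReal_restrict_apply hms]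
    congr 1
    ext t
    constructor
    · rintro ⟨h2, h3⟩
      refine ⟨⟨hsub h3, ?_⟩, h3⟩
      rw [← cellm_ex hab.le m K (hsub h3)]
      exact h2
    · rintro ⟨⟨h2, h4⟩, h3⟩
      refine ⟨?_, h3⟩
      show cellm m K fe t ∈ E
      rw [hfe, cellm_ex hab.le m K (hsub h3)]
      exact h4
  rw [hleft] at hsm
  set t : (Fin n → ℤ) → ℝ := fun k => ∑ j, (k j : ℝ) * m j with ht
  have hmem : ∀ k ∈ (SM.box (rad K J)).erase 0, k ≠ 0 ∧ ∀ j, |k j| < 2 * (K j * (J : ℤ) ^ 2) := by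
    intro k hk
    rw [Finset.mem_erase] at hk
    refine ⟨hk.1, fun j => ?_⟩
    have h3 := hk.2
    unfold SM.box rad at h3
    rw [Fintype.mem_piFinset] at h3
    have h4 := Finset.mem_Ioo.1 (h3 j)
    rw [abs_lt]
    push_cast at h4
    exact h4
  have hpos : ∀ j, (0 : ℤ) < K j * (J : ℤ) ^ 2 := fun j => by
    have h3 : (0 : ℤ) < K j := by exact_mod_cast hK j
    have h4 : (0 : ℤ) < J := by exact_mod_cast hJ
    positivity
  have ht1 : ∀ k ∈ (SM.box (rad K J)).erase 0, Δ ≤ |t k| := by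
    intro k hk
    obtain ⟨h3, h4⟩ := hmem k hk
    exact hsp k h3 (fun j => (h4 j).trans_le (by linarith [hpos j]))
  have ht2 : ∀ k ∈ (SM.box (rad K J)).erase 0, ∀ k' ∈ (SM.box (rad K J)).erase 0, k ≠ k' →
      Δ ≤ |t k - t k'| := by
    intro k hk k' hk' hne
    obtain ⟨_, h4⟩ := hmem k hk
    obtain ⟨_, h6⟩ := hmem k' hk'
    have h7 := hsp (k - k') (sub_ne_zero.2 hne) (fun j => by
      have h8 := h4 j
      have h9 := h6 j
      rw [abs_lt] at h8 h9 ⊢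
      simp only [Pi.sub_apply]
      constructor <;> linarith [h8.1, h8.2, h9.1, h9.2])
    have h8 : t k - t k' = ∑ j, (((k - k') j : ℤ) : ℝ) * m j := by
      rw [ht]
      simp only [Pi.sub_apply]
      push_cast
      simp only [sub_mul, Finset.sum_sub_distrib]
    rw [h8]
    exact h7
  have hhat : ∀ k ∈ (SM.box (rad K J)).erase 0, ‖hat μ (um m fe) k‖ ^ 2 ≤
      (C / (β - α)) ^ 2 * (1 / (t k) ^ 2) := by
    intro k hk
    have hne : t k ≠ 0 := by
      intro h0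
      have := ht1 k hk
      rw [h0, abs_zero] at this
      linarith
    have h1 : hat μ (um m fe) k = ((β - α)⁻¹ : ℝ) • ∫ x in α..β, e (t k * f x) := by
      unfold hat
      rw [hμ, integral_smul_measure, hcoef]
      congr 1
      rw [intervalIntegral.integral_of_le hαβ.le, ← integral_Icc_eq_integral_Ioc]
      refine setIntegral_congr_fun measurableSet_Icc fun x hx => ?_
      have hx' := hsub hx
      show e (∑ j, (k j : ℝ) * um m fe j x) = e (t k * f x)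
      congr 1
      rw [ht]
      simp only
      rw [Finset.sum_mul]
      refine Finset.sum_congr rfl fun j _ => ?_
      unfold um
      rw [hfe, ex_eq hab.le hx']
      ring
    have h2 := h.osc haα hαβ.le hβb hne
    rw [← hC] at h2
    rw [h1, norm_smul, Real.norm_eq_abs, abs_of_pos (inv_pos.2 hℓ)]
    have ht0 : 0 < |t k| := abs_pos.2 hne
    calc ((β - α)⁻¹ * ‖∫ x in α..β, e (t k * f x)‖) ^ 2 ≤ ((β - α)⁻¹ * (C / |t k|)) ^ 2 := by gcongr
      _ = (C / (β - α)) ^ 2 * (1 / |t k| ^ 2) := by field_simp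
      _ = _ := by rw [sq_abs]
  have hD2 : D2 μ (um m fe) K J ≤ C / (β - α) * (4 / Δ) := by
    have hp : 0 ≤ C / (β - α) * (4 / Δ) := by positivity
    rw [← Real.sqrt_sq hp]
    unfold D2
    refine Real.sqrt_le_sqrt ?_
    refine (Finset.sum_le_sum hhat).trans ?_
    rw [← Finset.mul_sum]
    have h4 := sep_sum ((SM.box (rad K J)).erase 0) t hΔ ht1 ht2
    calc (C / (β - α)) ^ 2 * ∑ k ∈ (SM.box (rad K J)).erase 0, 1 / (t k) ^ 2
        ≤ (C / (β - α)) ^ 2 * (16 / Δ ^ 2) := by gcongr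
      _ = (C / (β - α) * (4 / Δ)) ^ 2 := by rw [mul_pow, div_pow 4]; norm_num
  rw [Fintype.card_fin] at hsm
  have h3 : |volume.real (PVm a b m K f E ∩ Icc α β) - (E.card : ℝ) / (∏ j, (K j : ℝ)) * (β - α)| =
      |(β - α)⁻¹ * volume.real (PVm a b m K f E ∩ Icc α β) - (E.card : ℝ) / (∏ j, (K j : ℝ))| * (β - α) := by
    rw [← abs_of_pos hℓ, ← abs_mul, abs_of_pos hℓ]
    congr 1
    field_simp
  rw [h3]
  refine mul_le_mul_of_nonneg_right (hsm.trans ?_) hℓ.le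
  have h5 : (0 : ℝ) ≤ 4 * n + 1 := by positivity
  linarith [mul_le_mul_of_nonneg_left hD2 h5]

/-- **the joint law of several windows** -/
theorem Reg.law (h : Reg f f1 f2 a b B κ) (hf : FO f a b) (n q : ℕ) (η : ℝ) (hη : 0 < η) (hη1 : η ≤ 1) :
    ∃ c : ℝ, 0 < c ∧ ∃ H0 : ℕ, ∀ H : ℕ, H0 ≤ H → ∀ s : Finset ℝ,
      (∀ x, x ∈ s ↔ x ∈ Alg (q + 2) H) → 0 < cn s (fun x => x ∈ Icc a b) ∧
      ∀ m K : Fin n → ℕ, (∀ j, 1 ≤ m j) → (∀ j, 1 ≤ K j) →
      (∀ j, (m j : ℝ) * K j ≤ (H : ℝ) ^ ((q : ℝ) + 3 - η)) →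
      (∀ k : Fin n → ℤ, k ≠ 0 → (∀ j, |(k j : ℝ)| ≤ (H : ℝ) ^ η * K j) → (H : ℝ) ^ η ≤ |∑ j, (k j : ℝ) * m j|) →
      ∀ E : Finset (Fin n → ℕ), (∀ w ∈ E, ∀ j, w j < K j) →
      |(cn s (fun x => x ∈ PVm a b m K f E) : ℝ) / (cn s (fun x => x ∈ Icc a b) : ℝ) -
        (E.card : ℝ) / (∏ j, (K j : ℝ))| ≤ (H : ℝ) ^ (-c) := by
  classical
  have hab := h.hab
  have hba : 0 < b - a := by linarith
  have hκ := h.hκ
  have hB := h.B0
  have hfc : ContinuousOn f (Icc a b) := fun x hx => (h.hf1 x hx).continuousAt.continuousWithinAt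
  obtain ⟨C, hC⟩ : ∃ C : ℝ, C = 1 / κ + B * (b - a) / κ ^ 2 := ⟨_, rfl⟩
  have hC0 : 0 < C := by rw [hC]; positivity
  obtain ⟨C1, hC1, hoff⟩ := PVm_off (n := n) hf
  obtain ⟨C2, hC2, c2, hc2, H2, hglue⟩ := glue q hab (η / 2) (by positivity) (by linarith)
  obtain ⟨τ, hτ⟩ : ∃ τ : ℝ, τ = η / 4 := ⟨_, rfl⟩
  have hτ0 : 0 < τ := by rw [hτ]; positivity
  obtain ⟨c, hc⟩ : ∃ c : ℝ, c = min (τ / 2) (c2 / 2) := ⟨_, rfl⟩
  have hc0 : 0 < c := by rw [hc]; exact lt_min (by positivity) (by positivity)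
  have hcτ : 2 * c ≤ τ := by
    have : c ≤ τ / 2 := by rw [hc]; exact min_le_left _ _
    linarith
  have hcc2 : 2 * c ≤ c2 := by
    have : c ≤ c2 / 2 := by rw [hc]; exact min_le_right _ _
    linarith
  have hev : ∀ᶠ H : ℕ in atTop, 16 ≤ (H : ℝ) ^ τ ∧ 8 * C / (b - a) ≤ (H : ℝ) ^ τ ∧
      C1 * (n + 1) ≤ (H : ℝ) ^ (η / 2) ∧ 2 * (13 * (C2 * (9 * n + 11))) ≤ (H : ℝ) ^ c ∧ 2 ≤ (H : ℝ) ^ c ∧
      H2 ≤ H ∧ 2 ≤ H := by
    filter_upwards [ev_rpow 16 τ hτ0, ev_rpow (8 * C / (b - a)) τ hτ0,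
      ev_rpow (C1 * (n + 1)) (η / 2) (by positivity), ev_rpow (2 * (13 * (C2 * (9 * n + 11)))) c hc0,
      ev_rpow 2 c hc0, eventually_ge_atTop H2, eventually_ge_atTop 2] with H a1 a2 a3 a4 a5 a6 a7
    exact ⟨a1, a2, a3, a4, a5, a6, a7⟩
  obtain ⟨H0, hH0⟩ := Filter.eventually_atTop.1 hev
  refine ⟨c, hc0, H0, fun H hH s hs => ?_⟩
  obtain ⟨g1', g2', g3', g4', g5', g6', g7'⟩ := hH0 H hH
  have hHR2 : (2 : ℝ) ≤ H := by exact_mod_cast g7'
  have hHR : (1 : ℝ) ≤ H := by linarith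
  have hHpos : (0 : ℝ) < H := by linarith
  have hq0 : (0 : ℝ) ≤ q := Nat.cast_nonneg q
  have hn0 : (0 : ℝ) ≤ n := Nat.cast_nonneg n
  obtain ⟨hpos, hgl⟩ := hglue H g6' s hs
  refine ⟨hpos, fun m K hm hK hmK hfree E hE => ?_⟩
  obtain ⟨T, hT⟩ : ∃ T : ℝ, T = (H : ℝ) ^ τ := ⟨_, rfl⟩
  have hT1 : 1 ≤ T := by rw [hT]; exact Real.one_le_rpow hHR hτ0.le
  have hT0 : 0 < T := by linarith
  rw [← hT] at g1' g2'
  have hT4 : (H : ℝ) ^ η = T ^ 4 := by
    rw [hT, ← Real.rpow_natCast, ← Real.rpow_mul hHpos.le]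
    congr 1
    rw [hτ]
    push_cast
    ring
  have hK0 : ∀ j, 0 < K j := fun j => hK j
  obtain ⟨J, hJ⟩ : ∃ J : ℕ, J = ⌈T⌉₊ := ⟨_, rfl⟩
  have hJpos : 0 < J := by rw [hJ]; exact Nat.ceil_pos.2 hT0
  have hJge : T ≤ J := by rw [hJ]; exact Nat.le_ceil T
  have hJle : (J : ℝ) ≤ 2 * T := by rw [hJ]; exact ceil_le_two hT1
  have hJR : (0 : ℝ) < J := by linarith
  -- boundary points
  obtain ⟨Q, hQ, hoffQ⟩ := hoff m K hm hK
  have hX : (1 : ℝ) ≤ (H : ℝ) ^ ((q : ℝ) + 3 - η) := Real.one_le_rpow hHR (by linarith)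
  have hQ2 : (Q.card : ℝ) ≤ (H : ℝ) ^ ((q : ℝ) + 3 - η / 2) := by
    refine hQ.trans ?_
    have h1 : 1 + ∑ j, (m j : ℝ) * K j ≤ (n + 1) * (H : ℝ) ^ ((q : ℝ) + 3 - η) := by
      have h2 : ∑ j, (m j : ℝ) * K j ≤ ∑ _j : Fin n, (H : ℝ) ^ ((q : ℝ) + 3 - η) :=
        Finset.sum_le_sum fun j _ => hmK j
      rw [Finset.sum_const, Finset.card_univ, Fintype.card_fin, nsmul_eq_mul] at h2
      linarith
    calc C1 * (1 + ∑ j, (m j : ℝ) * K j) ≤ C1 * ((n + 1) * (H : ℝ) ^ ((q : ℝ) + 3 - η)) :=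
          mul_le_mul_of_nonneg_left h1 hC1
      _ = (C1 * (n + 1)) * (H : ℝ) ^ ((q : ℝ) + 3 - η) := by ring
      _ ≤ (H : ℝ) ^ (η / 2) * (H : ℝ) ^ ((q : ℝ) + 3 - η) := by gcongr
      _ = _ := by
          rw [← Real.rpow_add hHpos]
          congr 1
          ring
  have hKp : 0 < ∏ j, (K j : ℝ) := Finset.prod_pos fun j _ => by exact_mod_cast hK0 j
  have he0 : 0 ≤ (E.card : ℝ) / (∏ j, (K j : ℝ)) := by positivity
  have he1 : (E.card : ℝ) / (∏ j, (K j : ℝ)) ≤ 1 := by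
    have h1 : E ⊆ Fintype.piFinset fun j => Finset.range (K j) := by
      intro w hw
      rw [Fintype.mem_piFinset]
      intro j
      rw [Finset.mem_range]
      exact hE w hw j
    have h2 := Finset.card_le_card h1
    rw [Fintype.card_piFinset] at h2
    simp only [Finset.card_range] at h2
    rw [div_le_one hKp]
    exact_mod_cast h2
  have hsp : ∀ k : Fin n → ℤ, k ≠ 0 → (∀ j, |k j| < 4 * (K j * (J : ℤ) ^ 2)) →
      T ^ 4 ≤ |∑ j, (k j : ℝ) * m j| := by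
    intro k hk hkle
    rw [← hT4]
    refine hfree k hk fun j => ?_
    have h1 : |(k j : ℝ)| < 4 * (K j * (J : ℝ) ^ 2) := by
      have h2 := hkle j
      exact_mod_cast h2
    have h2 : (J : ℝ) ^ 2 ≤ (2 * T) ^ 2 := pow_le_pow_left₀ hJR.le hJle 2
    have hKj : (0 : ℝ) ≤ K j := Nat.cast_nonneg _
    rw [hT4]
    calc |(k j : ℝ)| ≤ 4 * (K j * (J : ℝ) ^ 2) := h1.le
      _ ≤ 4 * (K j * (2 * T) ^ 2) := by gcongr
      _ = (16 * T ^ 2) * K j := by ring
      _ ≤ T ^ 4 * K j := by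
          refine mul_le_mul_of_nonneg_right ?_ hKj
          have h5 : (16 : ℝ) ≤ T ^ 2 := by nlinarith
          calc 16 * T ^ 2 ≤ T ^ 2 * T ^ 2 := by gcongr
            _ = T ^ 4 := by ring
  obtain ⟨err, herr⟩ : ∃ err : ℝ, err = (9 * n + 11) / T := ⟨_, rfl⟩
  have hfinal := hgl (PVm a b m K f E) (PVm_meas hab.le m K hfc E) (fun t ht => ht.1) Q hQ2 (PVm_off' hoffQ E)
    ((E.card : ℝ) / (∏ j, (K j : ℝ))) err he0 he1 J hJpos (by
      intro i hi
      have hstep := tp_succ a b hJpos i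
      have ht0 := tp_mem hab hJpos hi.le
      have ht1 := tp_mem hab hJpos (Nat.succ_le_of_lt hi)
      rw [Nat.succ_eq_add_one] at ht1
      have hℓ : 0 < (b - a) / (J : ℝ) := by positivity
      have hlen : tp a b J (i + 1) - tp a b J i = (b - a) / J := by rw [hstep]; ring
      have hil := h.interval_law (α := tp a b J i) (β := tp a b J (i + 1)) ht0.1
        (by linarith) ht1.2 m K hK0 hJpos E hE (Δ := T ^ 4) (by positivity) hsp
      rw [hlen, ← hC] at hil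
      refine hil.trans (mul_le_mul_of_nonneg_right ?_ hℓ.le)
      rw [herr]
      have e1 : C / ((b - a) / J) * (4 / T ^ 4) ≤ 1 / T := by
        have e2 : C / ((b - a) / J) * (4 / T ^ 4) = (4 * C / (b - a)) * J / T ^ 4 := by field_simp
        rw [e2, div_le_div_iff₀ (by positivity) hT0]
        have e3 : (4 * C / (b - a)) * J ≤ (4 * C / (b - a)) * (2 * T) :=
          mul_le_mul_of_nonneg_left hJle (by positivity)
        have e4 : (4 * C / (b - a)) * (2 * T) = (8 * C / (b - a)) * T := by ring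
        have e5 : (8 * C / (b - a)) * T ≤ T * T := mul_le_mul_of_nonneg_right g2' hT0.le
        have e6 : T * T * T ≤ T ^ 4 := by
          have : T ^ 3 ≤ T ^ 4 := pow_le_pow_right₀ hT1 (by norm_num)
          calc T * T * T = T ^ 3 := by ring
            _ ≤ _ := this
        calc 4 * C / (b - a) * J * T ≤ (T * T) * T := by
              refine mul_le_mul_of_nonneg_right ?_ hT0.le
              linarith
          _ ≤ 1 * T ^ 4 := by linarith
      have e2 : (5 : ℝ) / J ≤ 5 / T := div_le_div_of_nonneg_left (by norm_num) hT0 hJge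
      calc (n : ℝ) * (5 / J) + (4 * n + 1) * (C / ((b - a) / J) * (4 / T ^ 4))
          ≤ n * (5 / T) + (4 * n + 1) * (1 / T) := by gcongr
        _ = (9 * n + 1) / T := by ring
        _ ≤ (9 * n + 11) / T := by gcongr; norm_num)
  refine hfinal.trans ?_
  have hC2' : 0 ≤ C2 * (9 * n + 11) := by positivity
  have h1 : C2 * (err + 1 / J) ≤ (C2 * (9 * n + 11)) * (12 / T + 1 / J) := by
    rw [herr, mul_assoc]
    refine mul_le_mul_of_nonneg_left ?_ hC2
    have h2 : (9 * (n : ℝ) + 11) / T ≤ (9 * n + 11) * (12 / T) := by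
      rw [mul_div_assoc']
      gcongr
      nlinarith
    have h3 : (1 : ℝ) / J ≤ (9 * n + 11) * (1 / J) := by
      have : 0 < (1 : ℝ) / J := by positivity
      nlinarith
    linarith
  have h2 := num2 (C2 := C2 * (9 * n + 11)) (T := T) (J := J) (c := c) (c2 := c2) hHR (by
    rw [hT]
    exact Real.rpow_le_rpow_of_exponent_le hHR hcτ) hC2' g4' g5' hcc2 hJge hT1
  linarith

end Pool.Agent.W5h30.MW
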