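import Pool.Agent.W5h30.MW.Rid
import Pool.Agent.W5h30.MU.AlgMult

/-!
# Small relations between two scales (helper30)
-/

set_option autoImplicit false
set_option linter.unusedVariables false

namespace Pool.Agent.W5h30.MW

open Finset Filter Topology
open Pool.Agent.W5h30.MU (ev_rpow')

/-- the lower bound, in terms of `H` -/
theorem rid (B : ℕ) (hB : 2 ≤ B) (A δ : ℝ) (hδ : 0 < δ) : ∀ᶠ H : ℕ in atTop,
    ∀ (k : Fin 2 → ℤ) (b s : Fin 2 → ℕ), (∀ j, 2 ≤ b j ∧ b j ≤ B) →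
      (∀ j, ((b j : ℝ)) ^ (s j) ≤ (H : ℝ) ^ A) → (∀ j, k j ≠ 0) → (∀ j, |(k j : ℝ)| ≤ (H : ℝ) ^ A) →
      (k 0 * (b 0 : ℤ) ^ (s 0) + k 1 * (b 1 : ℤ) ^ (s 1) : ℤ) ≠ 0 →
      (H : ℝ) ^ (-δ) * (b 1 : ℝ) ^ (s 1) ≤
        |(k 0 : ℝ)| * |(k 0 : ℝ) * (b 0 : ℝ) ^ (s 0) + k 1 * (b 1 : ℝ) ^ (s 1)| := by
  classical
  obtain ⟨b0, hb0⟩ : ∃ b0 : ℕ, b0 = B.factorial := ⟨_, rfl⟩
  have hb02 : 2 ≤ b0 := by
    rw [hb0]
    calc 2 = Nat.factorial 2 := rfl
      _ ≤ B.factorial := Nat.factorial_le hB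
  have hb0R : (2 : ℝ) ≤ b0 := by exact_mod_cast hb02
  have hb0pos : (0 : ℝ) < b0 := by linarith
  have hlb : 0 < Real.log b0 := Real.log_pos (by linarith)
  have hl2 : 0 < Real.log 2 := Real.log_pos (by norm_num)
  obtain ⟨A1, hA1⟩ : ∃ A1 : ℕ, A1 = ⌈|A| * Real.log b0 / Real.log 2⌉₊ + ⌈|A|⌉₊ := ⟨_, rfl⟩
  have hR := rid0 b0 hb02 A1 (δ / 2) (by positivity)
  obtain ⟨N0, hN0⟩ := Filter.eventually_atTop.1 hR
  filter_upwards [ev_rpow' ((b0 : ℝ) ^ (δ / 2)) (δ / 2) (by positivity), eventually_ge_atTop (b0 ^ N0 + 1),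
    eventually_ge_atTop 2] with H h1 h2 h3
  intro k b s hb hs hk hkle hne
  have hH2 : (2 : ℝ) ≤ H := by exact_mod_cast h3
  have hHpos : (0 : ℝ) < H := by linarith
  have hH1 : (1 : ℝ) ≤ H := by linarith
  obtain ⟨N, hN⟩ : ∃ N : ℕ, N = Nat.clog b0 H := ⟨_, rfl⟩
  have hMN : H ≤ b0 ^ N := by rw [hN]; exact Nat.le_pow_clog (by omega) _
  have hMNR : (H : ℝ) ≤ (b0 : ℝ) ^ N := by exact_mod_cast hMN
  have hNM : b0 ^ N ≤ b0 * H := by
    have h6 : b0 ^ (N - 1) < H := by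
      rw [hN]
      exact Nat.pow_pred_clog_lt_self (by omega) (by omega)
    have hNpos : 0 < N := by
      rw [hN]
      exact Nat.clog_pos (by omega) (by omega)
    calc b0 ^ N = b0 * b0 ^ (N - 1) := by
          rw [← pow_succ']
          congr 1
          omega
      _ ≤ b0 * H := Nat.mul_le_mul_left _ h6.le
  have hNMR : (b0 : ℝ) ^ N ≤ b0 * H := by exact_mod_cast hNM
  have hNge : N0 ≤ N := by
    by_contra hcon
    push Not at hcon
    have h6 : b0 ^ N ≤ b0 ^ N0 := Nat.pow_le_pow_right (by omega) hcon.le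
    omega
  have hlogH : Real.log H ≤ N * Real.log b0 := by
    rw [← Real.log_pow]
    exact Real.log_le_log hHpos hMNR
  have hlogH0 : 0 ≤ Real.log H := Real.log_nonneg hH1
  have hA2 : |A| * Real.log b0 / Real.log 2 ≤ A1 := by
    rw [hA1]
    push_cast
    have h6 := Nat.le_ceil (|A| * Real.log b0 / Real.log 2)
    have h7 : (0 : ℝ) ≤ (⌈|A|⌉₊ : ℝ) := Nat.cast_nonneg _
    linarith
  have hA3 : |A| ≤ A1 := by
    rw [hA1]
    push_cast
    have h6 : (0 : ℝ) ≤ (⌈|A| * Real.log b0 / Real.log 2⌉₊ : ℝ) := Nat.cast_nonneg _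
    have h7 := Nat.le_ceil |A|
    linarith
  have hHA : (H : ℝ) ^ A ≤ (b0 : ℝ) ^ (A1 * N) := by
    rw [← Real.exp_log hHpos, ← Real.exp_mul, ← Real.le_log_iff_exp_le (by positivity), Real.log_pow]
    push_cast
    calc Real.log H * A ≤ Real.log H * |A| := mul_le_mul_of_nonneg_left (le_abs_self A) hlogH0
      _ ≤ (N * Real.log b0) * A1 := mul_le_mul hlogH hA3 (abs_nonneg _) (by positivity)
      _ = (A1 : ℝ) * N * Real.log b0 := by ring
  have hdvd : ∀ j, b j ^ s j ∣ b0 ^ (A1 * N) := by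
    intro j
    have h6 : b j ∣ b0 := by
      rw [hb0]
      exact Nat.dvd_factorial (by have := (hb j).1; omega) (hb j).2
    have h7 : s j ≤ A1 * N := by
      have h8 : (s j : ℝ) * Real.log 2 ≤ |A| * (N * Real.log b0) := by
        have h9 := Real.log_le_log (by have := (hb j).1; positivity) (hs j)
        rw [Real.log_pow, Real.log_rpow hHpos] at h9
        have h10 : Real.log 2 ≤ Real.log (b j) := by
          apply Real.log_le_log (by norm_num)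
          exact_mod_cast (hb j).1
        calc (s j : ℝ) * Real.log 2 ≤ s j * Real.log (b j) :=
              mul_le_mul_of_nonneg_left h10 (Nat.cast_nonneg _)
          _ ≤ A * Real.log H := h9
          _ ≤ |A| * Real.log H := mul_le_mul_of_nonneg_right (le_abs_self A) hlogH0
          _ ≤ |A| * (N * Real.log b0) := mul_le_mul_of_nonneg_left hlogH (abs_nonneg _)
      have h11 : (s j : ℝ) ≤ A1 * N := by
        calc (s j : ℝ) = s j * Real.log 2 / Real.log 2 := by field_simp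
          _ ≤ |A| * (N * Real.log b0) / Real.log 2 := div_le_div_of_nonneg_right h8 hl2.le
          _ = (|A| * Real.log b0 / Real.log 2) * N := by ring
          _ ≤ A1 * N := mul_le_mul_of_nonneg_right hA2 (Nat.cast_nonneg _)
      exact_mod_cast h11
    exact (pow_dvd_pow_of_dvd h6 _).trans (pow_dvd_pow _ h7)
  have h4 := hN0 N hNge k (fun j => b j ^ s j) hk hdvd (fun j => (hkle j).trans hHA) (by
    push_cast
    exact hne)
  push_cast at h4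
  refine le_trans ?_ h4
  have h5 : (H : ℝ) ^ (-δ) ≤ (b0 : ℝ) ^ (-(δ / 2 * N)) := by
    have h6 : (b0 : ℝ) ^ (δ / 2 * N) ≤ (H : ℝ) ^ δ := by
      calc (b0 : ℝ) ^ (δ / 2 * N) = ((b0 : ℝ) ^ N) ^ (δ / 2) := by
            rw [← Real.rpow_natCast, ← Real.rpow_mul hb0pos.le]
            congr 1
            ring
        _ ≤ (b0 * H) ^ (δ / 2) := Real.rpow_le_rpow (by positivity) hNMR (by positivity)
        _ = (b0 : ℝ) ^ (δ / 2) * (H : ℝ) ^ (δ / 2) := Real.mul_rpow hb0pos.le hHpos.le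
        _ ≤ (H : ℝ) ^ (δ / 2) * (H : ℝ) ^ (δ / 2) := by gcongr
        _ = (H : ℝ) ^ δ := by
            rw [← Real.rpow_add hHpos]
            congr 1
            ring
    rw [Real.rpow_neg hHpos.le, Real.rpow_neg hb0pos.le]
    exact inv_anti₀ (by positivity) h6
  exact mul_le_mul_of_nonneg_right h5 (by positivity)

/-- no small relations between two scales -/
theorem pair_free (B : ℕ) (hB : 2 ≤ B) (A ε : ℝ) (hε : 0 < ε) (hε1 : ε ≤ 1) : ∀ᶠ H : ℕ in atTop,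
    ∀ (b s K : Fin 2 → ℕ), (∀ j, 2 ≤ b j ∧ b j ≤ B) → (∀ j, 1 ≤ K j) →
      (∀ j, ((b j : ℝ)) ^ (s j) * K j ≤ (H : ℝ) ^ A) → (∀ j, (H : ℝ) ^ ε ≤ (b j : ℝ) ^ (s j)) →
      ((K 0 : ℝ) * (Nat.gcd (b 0 ^ s 0) (b 1 ^ s 1) : ℕ) * (H : ℝ) ^ ε ≤ (b 1 : ℝ) ^ (s 1) ∨
        (K 1 : ℝ) * (Nat.gcd (b 0 ^ s 0) (b 1 ^ s 1) : ℕ) * (H : ℝ) ^ ε ≤ (b 0 : ℝ) ^ (s 0)) →
      ∀ k : Fin 2 → ℤ, k ≠ 0 → (∀ j, |(k j : ℝ)| ≤ (H : ℝ) ^ (ε / 4) * K j) →
        (H : ℝ) ^ (ε / 4) ≤ |(k 0 : ℝ) * (b 0 : ℝ) ^ (s 0) + k 1 * (b 1 : ℝ) ^ (s 1)| := by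
  filter_upwards [rid B hB (|A| + 1) (ε / 4) (by positivity), eventually_ge_atTop 2] with H hr h3
  have hH2 : (2 : ℝ) ≤ H := by exact_mod_cast h3
  have hHpos : (0 : ℝ) < H := by linarith
  have hH1 : (1 : ℝ) ≤ H := by linarith
  have hHlt : (1 : ℝ) < H := by linarith
  -- one case
  have key : ∀ (b s K : Fin 2 → ℕ), (∀ j, 2 ≤ b j ∧ b j ≤ B) → (∀ j, 1 ≤ K j) →
      (∀ j, ((b j : ℝ)) ^ (s j) * K j ≤ (H : ℝ) ^ A) → (∀ j, (H : ℝ) ^ ε ≤ (b j : ℝ) ^ (s j)) →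
      ((K 0 : ℝ) * (Nat.gcd (b 0 ^ s 0) (b 1 ^ s 1) : ℕ) * (H : ℝ) ^ ε ≤ (b 1 : ℝ) ^ (s 1)) →
      ∀ k : Fin 2 → ℤ, k ≠ 0 → (∀ j, |(k j : ℝ)| ≤ (H : ℝ) ^ (ε / 4) * K j) →
        (H : ℝ) ^ (ε / 4) ≤ |(k 0 : ℝ) * (b 0 : ℝ) ^ (s 0) + k 1 * (b 1 : ℝ) ^ (s 1)| := by
    intro b s K hb hK hbK hHs hcond k hk hkle
    have hbpos : ∀ j, 0 < b j ^ s j := fun j => pow_pos (by have := (hb j).1; omega) _
    have hb1R : ∀ j, (1 : ℝ) ≤ (b j : ℝ) ^ (s j) := fun j => by exact_mod_cast hbpos j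
    have hKR : ∀ j, (1 : ℝ) ≤ K j := fun j => by exact_mod_cast hK j
    have hq : (H : ℝ) ^ (ε / 4) ≤ (H : ℝ) ^ ε := Real.rpow_le_rpow_of_exponent_le hH1 (by linarith)
    by_cases h0 : k 0 = 0
    · have h1 : k 1 ≠ 0 := by
        intro h1
        apply hk
        funext j
        fin_cases j
        · exact h0
        · exact h1
      rw [h0, Int.cast_zero, zero_mul, zero_add, abs_mul, abs_of_pos (show (0 : ℝ) < (b 1 : ℝ) ^ (s 1) by linarith [hb1R 1])]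
      have h2 : (1 : ℝ) ≤ |(k 1 : ℝ)| := by exact_mod_cast Int.one_le_abs h1
      calc (H : ℝ) ^ (ε / 4) ≤ 1 * (b 1 : ℝ) ^ (s 1) := by rw [one_mul]; exact hq.trans (hHs 1)
        _ ≤ _ := mul_le_mul_of_nonneg_right h2 (by linarith [hb1R 1])
    by_cases h1 : k 1 = 0
    · rw [h1, Int.cast_zero, zero_mul, add_zero, abs_mul, abs_of_pos (show (0 : ℝ) < (b 0 : ℝ) ^ (s 0) by linarith [hb1R 0])]
      have h2 : (1 : ℝ) ≤ |(k 0 : ℝ)| := by exact_mod_cast Int.one_le_abs h0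
      calc (H : ℝ) ^ (ε / 4) ≤ 1 * (b 0 : ℝ) ^ (s 0) := by rw [one_mul]; exact hq.trans (hHs 0)
        _ ≤ _ := mul_le_mul_of_nonneg_right h2 (by linarith [hb1R 0])
    obtain ⟨g, hg⟩ : ∃ g : ℕ, g = Nat.gcd (b 0 ^ s 0) (b 1 ^ s 1) := ⟨_, rfl⟩
    rw [← hg] at hcond
    have hgpos : 0 < g := by rw [hg]; exact Nat.gcd_pos_of_pos_left _ (hbpos 0)
    have hgR : (1 : ℝ) ≤ g := by exact_mod_cast hgpos
    have hne : (k 0 * (b 0 : ℤ) ^ (s 0) + k 1 * (b 1 : ℤ) ^ (s 1) : ℤ) ≠ 0 := by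
      intro hz
      have hd : b 1 ^ s 1 ∣ (k 0).natAbs * b 0 ^ s 0 := by
        have h2 : ((b 1 ^ s 1 : ℕ) : ℤ) ∣ k 0 * ((b 0 ^ s 0 : ℕ) : ℤ) := by
          refine ⟨-k 1, ?_⟩
          push_cast
          linarith
        have h3 := Int.natAbs_dvd_natAbs.2 h2
        rw [Int.natAbs_mul, Int.natAbs_natCast, Int.natAbs_natCast] at h3
        exact h3
      have hd2 : b 1 ^ s 1 ∣ (k 0).natAbs * g := by
        have h4 : b 1 ^ s 1 ∣ Nat.gcd ((k 0).natAbs * b 0 ^ s 0) ((k 0).natAbs * b 1 ^ s 1) :=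
          Nat.dvd_gcd hd (Dvd.intro_left _ rfl)
        rw [Nat.gcd_mul_left, ← hg] at h4
        exact h4
      have hle := Nat.le_of_dvd (Nat.mul_pos (Int.natAbs_pos.2 h0) hgpos) hd2
      have hleR : (b 1 : ℝ) ^ (s 1) ≤ |(k 0 : ℝ)| * g := by
        have h5 : ((b 1 ^ s 1 : ℕ) : ℝ) ≤ (((k 0).natAbs * g : ℕ) : ℝ) := by exact_mod_cast hle
        rw [Nat.cast_mul, Nat.cast_natAbs, Int.cast_abs] at h5
        push_cast at h5
        exact h5
      have h6 : (K 0 : ℝ) * g * (H : ℝ) ^ ε ≤ ((H : ℝ) ^ (ε / 4) * K 0) * g :=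
        hcond.trans (hleR.trans (mul_le_mul_of_nonneg_right (hkle 0) (by linarith)))
      have h7 : (H : ℝ) ^ (ε / 4) < (H : ℝ) ^ ε := Real.rpow_lt_rpow_of_exponent_lt hHlt (by linarith)
      have h8 : 0 < (K 0 : ℝ) * g := mul_pos (by linarith [hKR 0]) (by linarith)
      nlinarith
    have hAb : ∀ j, (b j : ℝ) ^ (s j) ≤ (H : ℝ) ^ (|A| + 1) := by
      intro j
      calc (b j : ℝ) ^ (s j) ≤ (b j : ℝ) ^ (s j) * K j := le_mul_of_one_le_right (by linarith [hb1R j]) (hKR j)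
        _ ≤ (H : ℝ) ^ A := hbK j
        _ ≤ _ := Real.rpow_le_rpow_of_exponent_le hH1 (by linarith [le_abs_self A])
    have hAk : ∀ j, |(k j : ℝ)| ≤ (H : ℝ) ^ (|A| + 1) := by
      intro j
      calc |(k j : ℝ)| ≤ (H : ℝ) ^ (ε / 4) * K j := hkle j
        _ ≤ (H : ℝ) ^ (1 : ℝ) * (H : ℝ) ^ |A| := by
            have e1 : (H : ℝ) ^ (ε / 4) ≤ (H : ℝ) ^ (1 : ℝ) :=
              Real.rpow_le_rpow_of_exponent_le hH1 (by linarith)
            have e2 : (K j : ℝ) ≤ (H : ℝ) ^ |A| := by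
              calc (K j : ℝ) ≤ (b j : ℝ) ^ (s j) * K j := le_mul_of_one_le_left (by linarith [hKR j]) (hb1R j)
                _ ≤ (H : ℝ) ^ A := hbK j
                _ ≤ _ := Real.rpow_le_rpow_of_exponent_le hH1 (le_abs_self A)
            gcongr
        _ = _ := by rw [← Real.rpow_add hHpos]; congr 1; ring
    have h4 := hr k b s hb hAb (fun j => by fin_cases j; exacts [h0, h1]) hAk hne
    obtain ⟨Lv, hLv⟩ : ∃ Lv : ℝ, Lv = |(k 0 : ℝ) * (b 0 : ℝ) ^ (s 0) + k 1 * (b 1 : ℝ) ^ (s 1)| := ⟨_, rfl⟩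
    rw [← hLv] at h4 ⊢
    have hLv0 : 0 ≤ Lv := by rw [hLv]; exact abs_nonneg _
    have hK0 : (0 : ℝ) < K 0 := by linarith [hKR 0]
    have h5 : (H : ℝ) ^ (-(ε / 4)) * (K 0 * (H : ℝ) ^ ε) ≤ ((H : ℝ) ^ (ε / 4) * K 0) * Lv := by
      calc (H : ℝ) ^ (-(ε / 4)) * (K 0 * (H : ℝ) ^ ε) ≤ (H : ℝ) ^ (-(ε / 4)) * (b 1 : ℝ) ^ (s 1) := by
            refine mul_le_mul_of_nonneg_left (le_trans ?_ hcond) (by positivity)
            have : (K 0 : ℝ) * (H : ℝ) ^ ε * 1 ≤ (K 0 : ℝ) * (H : ℝ) ^ ε * g :=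
              mul_le_mul_of_nonneg_left hgR (by positivity)
            nlinarith
        _ ≤ |(k 0 : ℝ)| * Lv := h4
        _ ≤ _ := mul_le_mul_of_nonneg_right (hkle 0) hLv0
    have h6 : (H : ℝ) ^ (-(ε / 4)) * (K 0 * (H : ℝ) ^ ε) = K 0 * ((H : ℝ) ^ (ε / 4) * (H : ℝ) ^ (ε / 2)) := by
      rw [← Real.rpow_add hHpos]
      rw [show (H : ℝ) ^ (-(ε / 4)) * (K 0 * (H : ℝ) ^ ε) = K 0 * ((H : ℝ) ^ (-(ε / 4)) * (H : ℝ) ^ ε) by ring,
        ← Real.rpow_add hHpos]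
      congr 2
      ring
    rw [h6] at h5
    have h7 : (K 0 * (H : ℝ) ^ (ε / 4)) * (H : ℝ) ^ (ε / 2) ≤ (K 0 * (H : ℝ) ^ (ε / 4)) * Lv := by linarith
    have h8 := le_of_mul_le_mul_left h7 (by positivity)
    exact (Real.rpow_le_rpow_of_exponent_le hH1 (by linarith)).trans h8
  intro b s K hb hK hbK hHs hcond k hk hkle
  rcases hcond with hcond | hcond
  · exact key b s K hb hK hbK hHs hcond k hk hkle
  · have h1 := key ![b 1, b 0] ![s 1, s 0] ![K 1, K 0]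
      (fun j => by fin_cases j; exacts [hb 1, hb 0]) (fun j => by fin_cases j; exacts [hK 1, hK 0])
      (fun j => by fin_cases j; exacts [hbK 1, hbK 0]) (fun j => by fin_cases j; exacts [hHs 1, hHs 0])
      (by
        simp only [Matrix.cons_val_zero, Matrix.cons_val_one]
        rw [Nat.gcd_comm]
        exact hcond) ![k 1, k 0]
      (by
        intro h0
        have h3 := congrFun h0 0
        have h4 := congrFun h0 1
        simp at h3 h4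
        apply hk
        funext j
        fin_cases j
        · exact h4
        · exact h3)
      (fun j => by fin_cases j; exacts [hkle 1, hkle 0])
    simp only [Matrix.cons_val_zero, Matrix.cons_val_one] at h1
    rw [add_comm]
    exact h1

end Pool.Agent.W5h30.MW
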