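import Mathlib
import Pool.Agent.R333.SubR
import Pool.Agent.W5h30.MU.Forms

/-!
# A lower bound for sums of two integers with large parts composed of given primes (helper30)
-/

set_option autoImplicit false
set_option linter.unusedVariables false

namespace Pool.Agent.W5h30.MW

open Finset Filter Topology
open Pool.Agent.W5h30.MU (freq_pigeon)

/-- the bound -/
def RB (b A : ℕ) (δ : ℝ) (m : ℕ) : Prop :=
  ∀ (k : Fin 2 → ℤ) (r : Fin 2 → ℕ), (∀ j, k j ≠ 0) → (∀ j, r j ∣ b ^ (A * m)) →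
    (∀ j, |(k j : ℝ)| ≤ (b : ℝ) ^ (A * m)) → (k 0 * r 0 + k 1 * r 1 : ℤ) ≠ 0 →
    (b : ℝ) ^ (-(δ * m)) * r 1 ≤ |(k 0 : ℝ)| * |(k 0 : ℝ) * r 0 + k 1 * r 1|

theorem rid0 (b : ℕ) (hb : 2 ≤ b) (A : ℕ) (δ : ℝ) (hδ : 0 < δ) : ∀ᶠ m : ℕ in atTop, RB b A δ m := by
  have hb0 : (0 : ℝ) < b := by exact_mod_cast (by omega : 0 < b)
  have hb1 : (1 : ℝ) < b := by exact_mod_cast (by omega : 1 < b)
  have hb2 : (2 : ℝ) ≤ b := by exact_mod_cast hb
  have hlb : 0 < Real.log b := Real.log_pos hb1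
  by_contra hcon
  rw [Filter.not_eventually] at hcon
  have hwit : ∀ m : ℕ, ∃ (k : Fin 2 → ℤ) (r : Fin 2 → ℕ), ¬ RB b A δ m →
      (∀ j, k j ≠ 0) ∧ (∀ j, r j ∣ b ^ (A * m)) ∧ (∀ j, |(k j : ℝ)| ≤ (b : ℝ) ^ (A * m)) ∧
      (k 0 * r 0 + k 1 * r 1 : ℤ) ≠ 0 ∧
      |(k 0 : ℝ)| * |(k 0 : ℝ) * r 0 + k 1 * r 1| < (b : ℝ) ^ (-(δ * m)) * r 1 := by
    intro m
    by_cases hm : RB b A δ m
    · exact ⟨0, 0, fun h => absurd hm h⟩
    · have hm' := hm
      unfold RB at hm'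
      push Not at hm'
      obtain ⟨k, r, h0, h1, h2, h3, h4⟩ := hm'
      exact ⟨k, r, fun _ => ⟨h0, h1, h2, h3, h4⟩⟩
  choose k r hkr using hwit
  obtain ⟨γ, hγ⟩ : ∃ γ : ℝ, γ = δ / 8 := ⟨_, rfl⟩
  have hγ0 : 0 < γ := by rw [hγ]; positivity
  obtain ⟨M0, hM0⟩ : ∃ M0 : ℕ, M0 = ⌊(2 * A + 1 : ℝ) / γ⌋₊ := ⟨_, rfl⟩
  set L : ℕ → Fin 2 → ℝ := fun m => ![(k m 0 : ℝ) * r m 0, (k m 0 : ℝ) * r m 0 + k m 1 * r m 1] with hL
  set θ : ℕ → Fin 2 → ℝ := fun m j => Real.log |L m j| / (m * Real.log b) with hθ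
  have hfreq0 : ∃ᶠ m in atTop, ¬ RB b A δ m ∧ 1 ≤ m := hcon.and_eventually (eventually_ge_atTop 1)
  obtain ⟨cell, hcell⟩ := freq_pigeon (fun m => ¬ RB b A δ m ∧ 1 ≤ m)
    (fun m => ((fun j => Fin.ofNat (M0 + 1) ⌊θ m j / γ⌋₊) : Fin 2 → Fin (M0 + 1))) hfreq0
  set P : ℕ → Prop := fun m => (¬ RB b A δ m ∧ 1 ≤ m) ∧
    ((fun j => Fin.ofNat (M0 + 1) ⌊θ m j / γ⌋₊) : Fin 2 → Fin (M0 + 1)) = cell with hP
  have hcell' : ∃ᶠ m in atTop, P m := hcell
  have hrpos : ∀ m, P m → ∀ j, 0 < r m j := by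
    intro m hm j
    exact Nat.pos_of_dvd_of_pos ((hkr m hm.1.1).2.1 j) (pow_pos (by omega) _)
  have hml : ∀ m, P m → 0 < (m : ℝ) * Real.log b := by
    intro m hm
    have : (1 : ℝ) ≤ m := by exact_mod_cast hm.1.2
    positivity
  have hrle : ∀ m, P m → ∀ j, (r m j : ℝ) ≤ (b : ℝ) ^ (A * m) := by
    intro m hm j
    exact_mod_cast Nat.le_of_dvd (pow_pos (by omega) _) ((hkr m hm.1.1).2.1 j)
  have hL1 : ∀ m, P m → ∀ j, 1 ≤ |L m j| := by
    intro m hm j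
    obtain ⟨w0, w1, w2, w3, w4⟩ := hkr m hm.1.1
    have h1 : (1 : ℝ) ≤ |(k m 0 : ℝ) * r m 0| := by
      have h2 : (k m 0 * (r m 0 : ℤ)) ≠ 0 := mul_ne_zero (w0 0) (by exact_mod_cast (hrpos m hm 0).ne')
      exact_mod_cast Int.one_le_abs h2
    have h2 : (1 : ℝ) ≤ |(k m 0 : ℝ) * r m 0 + k m 1 * r m 1| := by
      exact_mod_cast Int.one_le_abs w3
    fin_cases j
    · exact h1
    · exact h2
  have hLle : ∀ m, P m → ∀ j, |L m j| ≤ (b : ℝ) ^ ((2 * A + 1) * m) := by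
    intro m hm j
    obtain ⟨w0, w1, w2, w3, w4⟩ := hkr m hm.1.1
    have hterm : ∀ j, |(k m j : ℝ) * r m j| ≤ (b : ℝ) ^ (2 * A * m) := by
      intro j
      rw [abs_mul, Nat.abs_cast]
      calc |(k m j : ℝ)| * r m j ≤ (b : ℝ) ^ (A * m) * (b : ℝ) ^ (A * m) :=
            mul_le_mul (w2 j) (hrle m hm j) (Nat.cast_nonneg _) (by positivity)
        _ = _ := by rw [← pow_add]; congr 1; ring
    have hbm : (2 : ℝ) ≤ (b : ℝ) ^ m := by
      calc (2 : ℝ) ≤ b := hb2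
        _ = (b : ℝ) ^ 1 := (pow_one _).symm
        _ ≤ (b : ℝ) ^ m := pow_le_pow_right₀ hb1.le hm.1.2
    have hsplit : (b : ℝ) ^ ((2 * A + 1) * m) = (b : ℝ) ^ (2 * A * m) * (b : ℝ) ^ m := by
      rw [← pow_add]; congr 1; ring
    have hp : 0 < (b : ℝ) ^ (2 * A * m) := by positivity
    rw [hsplit]
    fin_cases j
    · show |(k m 0 : ℝ) * r m 0| ≤ _
      have := hterm 0
      nlinarith
    · show |(k m 0 : ℝ) * r m 0 + k m 1 * r m 1| ≤ _
      have := hterm 0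
      have := hterm 1
      have := abs_add_le ((k m 0 : ℝ) * r m 0) (k m 1 * r m 1)
      nlinarith
  have hθ0 : ∀ m, P m → ∀ j, 0 ≤ θ m j := by
    intro m hm j
    exact div_nonneg (Real.log_nonneg (hL1 m hm j)) (hml m hm).le
  have hθle : ∀ m, P m → ∀ j, θ m j ≤ 2 * A + 1 := by
    intro m hm j
    rw [hθ]
    simp only
    rw [div_le_iff₀ (hml m hm)]
    have h3 := Real.log_le_log (by linarith [hL1 m hm j]) (hLle m hm j)
    rw [Real.log_pow] at h3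
    push_cast at h3
    linarith
  have hval : ∀ m, P m → ∀ j, ((cell j : ℕ)) = ⌊θ m j / γ⌋₊ := by
    intro m hm j
    have h1 := hm.2
    have h2 : ⌊θ m j / γ⌋₊ < M0 + 1 := by
      have : ⌊θ m j / γ⌋₊ ≤ M0 := by
        rw [hM0]
        exact Nat.floor_le_floor (div_le_div_of_nonneg_right (hθle m hm j) hγ0.le)
      omega
    rw [← h1]
    simp only [Fin.ofNat]
    exact Nat.mod_eq_of_lt h2
  have hup : ∀ m, P m → ∀ j, θ m j ≤ ((cell j : ℕ) + 1 : ℝ) * γ := by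
    intro m hm j
    rw [hval m hm j]
    have := Nat.lt_floor_add_one (θ m j / γ)
    rw [div_lt_iff₀ hγ0] at this
    exact this.le
  have hup2 : ∀ m, P m → ∀ j, ((cell j : ℕ) : ℝ) * γ ≤ θ m j := by
    intro m hm j
    rw [hval m hm j]
    have := Nat.floor_le (div_nonneg (hθ0 m hm j) hγ0.le)
    rwa [le_div_iff₀ hγ0] at this
  set a : Fin 2 → ℝ := fun j => ((cell j : ℕ) + 1 : ℝ) * γ with ha
  set M : Matrix (Fin 2) (Fin 2) ℝ := !![1, 0; 1, 1] with hM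
  have hMval : ∀ m l, ∑ j, M l j * ((k m j * (r m j : ℤ) : ℤ) : ℝ) = L m l := by
    intro m l
    rw [hM, hL]
    fin_cases l
    · simp [Fin.sum_univ_two]
    · simp [Fin.sum_univ_two]
  obtain ⟨y, hy0, hyfreq⟩ := Pool.Agent.R333.SubR.sub_real (n := 2) (by omega) b hb M
    (fun i j => by
      rw [hM]
      fin_cases i <;> fin_cases j
      · exact isAlgebraic_one
      · exact isAlgebraic_zero
      · exact isAlgebraic_one
      · exact isAlgebraic_one)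
    (fun i j hij => by
      rw [hM]
      fin_cases i <;> fin_cases j
      · exact absurd hij (by decide)
      · rfl
      · exact absurd hij (by decide)
      · exact absurd hij (by decide))
    (fun i => by
      rw [hM]
      fin_cases i <;> simp)
    P hcell' (fun m j => k m j * (r m j : ℤ)) (fun m hm h0 => by
      obtain ⟨w0, w1, w2, w3, w4⟩ := hkr m hm.1.1
      apply w3
      have h1 := congrFun h0 0
      have h2 := congrFun h0 1
      simp only [Pi.zero_apply] at h1 h2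
      rw [h1, h2, add_zero])
    r A (fun m l hm => (hkr m hm.1.1).2.1 l) (fun m l hm => Dvd.intro_left _ rfl) a 1 one_pos
    (fun m l hm => by
      have hmlm := hml m hm
      rw [hMval, one_mul, ha]
      simp only
      have h3 := hup m hm l
      rw [hθ] at h3
      simp only at h3
      rw [div_le_iff₀ hmlm] at h3
      have hLp : 0 < |L m l| := by linarith [hL1 m hm l]
      rw [← Real.exp_log hb0, ← Real.exp_mul, ← Real.log_le_iff_le_exp hLp]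
      refine h3.trans (le_of_eq ?_)
      ring)
    (δ / 2) (by positivity) (fun m hm => by
      have hmlm := hml m hm
      obtain ⟨w0, w1, w2, w3, w4⟩ := hkr m hm.1.1
      have hr0 : (0 : ℝ) < r m 0 := by exact_mod_cast hrpos m hm 0
      have hr1 : (0 : ℝ) < r m 1 := by exact_mod_cast hrpos m hm 1
      have hk0 : (0 : ℝ) < |(k m 0 : ℝ)| := abs_pos.2 (by exact_mod_cast w0 0)
      have hLp0 : 0 < |L m 0| := by linarith [hL1 m hm 0]
      have hLp1 : 0 < |L m 1| := by linarith [hL1 m hm 1]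
      have e0 : |L m 0| = |(k m 0 : ℝ)| * r m 0 := by
        show |(k m 0 : ℝ) * r m 0| = _
        rw [abs_mul, Nat.abs_cast]
      have e1 : |L m 1| = |(k m 0 : ℝ) * r m 0 + k m 1 * r m 1| := rfl
      have h1 := Real.log_lt_log (mul_pos hk0 (by rw [← e1]; exact hLp1)) w4
      rw [Real.log_mul hk0.ne' (by rw [← e1]; exact hLp1.ne'), Real.log_mul (by positivity) hr1.ne',
        Real.log_rpow hb0, ← e1] at h1
      have h2 : Real.log |L m 0| = Real.log |(k m 0 : ℝ)| + Real.log (r m 0) := by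
        rw [e0, Real.log_mul hk0.ne' hr0.ne']
      have h3 : ∑ l, a l ≤ θ m 0 + θ m 1 + 2 * γ := by
        rw [Fin.sum_univ_two, ha]
        simp only
        have := hup2 m hm 0
        have := hup2 m hm 1
        linarith
      have h4 : (θ m 0 + θ m 1) * (m * Real.log b) = Real.log |L m 0| + Real.log |L m 1| := by
        rw [hθ]
        simp only
        rw [← add_div, div_mul_cancel₀ _ hmlm.ne']
      rw [Fin.sum_univ_two (f := fun l => Real.log (r m l : ℝ))]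
      have h5 : ∑ l, a l + δ / 2 ≤ θ m 0 + θ m 1 + δ := by
        rw [hγ] at h3
        linarith
      calc (∑ l, a l + δ / 2) * m * Real.log b = (∑ l, a l + δ / 2) * (m * Real.log b) := by ring
        _ ≤ (θ m 0 + θ m 1 + δ) * (m * Real.log b) := mul_le_mul_of_nonneg_right h5 hmlm.le
        _ = Real.log |L m 0| + Real.log |L m 1| + δ * m * Real.log b := by
            rw [add_mul, h4]; ring
        _ ≤ Real.log (r m 0) + Real.log (r m 1) := by
            rw [h2]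
            linarith)
  -- the relation
  have hlarge : ∀ᶠ m : ℕ in atTop, |(y 0 : ℝ)| < (b : ℝ) ^ (δ * m) := by
    have h2 : Tendsto (fun m : ℕ => δ * (m : ℝ)) atTop atTop :=
      Tendsto.const_mul_atTop hδ tendsto_natCast_atTop_atTop
    have h3 := (tendsto_rpow_atTop_of_base_gt_one (b : ℝ) hb1).comp h2
    exact h3.eventually_gt_atTop _
  obtain ⟨m, ⟨hm1, hm2⟩, hm3⟩ := (hyfreq.and_eventually hlarge).exists
  obtain ⟨w0, w1, w2, w3, w4⟩ := hkr m hm1.1.1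
  have hr0 : (0 : ℝ) < r m 0 := by exact_mod_cast hrpos m hm1 0
  have hr1 : (0 : ℝ) < r m 1 := by exact_mod_cast hrpos m hm1 1
  have hk0 : (k m 0 : ℝ) ≠ 0 := by exact_mod_cast w0 0
  have hk1 : (k m 1 : ℝ) ≠ 0 := by exact_mod_cast w0 1
  rw [Fin.sum_univ_two] at hm2
  have hm2R : (y 0 : ℝ) * ((k m 0 : ℝ) * r m 0) + y 1 * ((k m 1 : ℝ) * r m 1) = 0 := by
    exact_mod_cast hm2
  have hy0' : (y 0 : ℝ) ≠ 0 := by
    intro h0
    have h1 : (y 1 : ℝ) * ((k m 1 : ℝ) * r m 1) = 0 := by rw [h0] at hm2R; linarith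
    have h2 : (y 1 : ℝ) = 0 := by
      rcases mul_eq_zero.1 h1 with h | h
      · exact h
      · exact absurd h (mul_ne_zero hk1 hr1.ne')
    apply hy0
    funext j
    fin_cases j
    · exact_mod_cast h0
    · exact_mod_cast h2
  obtain ⟨Lv, hLv⟩ : ∃ Lv : ℝ, Lv = (k m 0 : ℝ) * r m 0 + k m 1 * r m 1 := ⟨_, rfl⟩
  have hLv0 : Lv ≠ 0 := by rw [hLv]; exact_mod_cast w3
  rw [← hLv] at w4
  have h1 : (y 0 : ℝ) * Lv = ((y 0 - y 1 : ℤ) : ℝ) * ((k m 1 : ℝ) * r m 1) := by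
    rw [hLv]
    push_cast
    linarith
  have h2 : (y 0 - y 1 : ℤ) ≠ 0 := by
    intro h0
    rw [h0, Int.cast_zero, zero_mul] at h1
    exact (mul_ne_zero hy0' hLv0) h1
  have h3 : (r m 1 : ℝ) ≤ |(y 0 : ℝ)| * |Lv| := by
    rw [← abs_mul, h1, abs_mul, abs_mul, Nat.abs_cast]
    have h4 : (1 : ℝ) ≤ |((y 0 - y 1 : ℤ) : ℝ)| := by exact_mod_cast Int.one_le_abs h2
    have h5 : (1 : ℝ) ≤ |(k m 1 : ℝ)| := by exact_mod_cast Int.one_le_abs (w0 1)
    have h6 : (1 : ℝ) * r m 1 ≤ |(k m 1 : ℝ)| * r m 1 := mul_le_mul_of_nonneg_right h5 hr1.le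
    nlinarith [mul_le_mul h4 h6 (by positivity) (by positivity)]
  have h4 : (1 : ℝ) ≤ |(k m 0 : ℝ)| := by exact_mod_cast Int.one_le_abs (w0 0)
  have h5 : |Lv| ≤ |(k m 0 : ℝ)| * |Lv| := by
    have := abs_nonneg Lv
    nlinarith
  have h6 : (b : ℝ) ^ (-(δ * m)) * (b : ℝ) ^ (δ * m) = 1 := by
    rw [← Real.rpow_add hb0]; simp
  have h7 : 0 < |(y 0 : ℝ)| := abs_pos.2 hy0'
  have h8 : 0 < (b : ℝ) ^ (-(δ * m)) := by positivity
  have h9 : (r m 1 : ℝ) ≤ |(y 0 : ℝ)| * ((b : ℝ) ^ (-(δ * m)) * r m 1) := by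
    refine h3.trans (mul_le_mul_of_nonneg_left (h5.trans w4.le) h7.le)
  have h10 : |(y 0 : ℝ)| * (b : ℝ) ^ (-(δ * m)) < 1 := by
    rw [← h6, mul_comm]
    exact mul_lt_mul_of_pos_left hm3 h8
  nlinarith

end Pool.Agent.W5h30.MW
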